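import Mathlib
import Pool.Agent.Helper26.OB.Defs

/-!
# OB-T4: residues of transcendental numbers of degree divisible by `l`
-/

set_option autoImplicit false

namespace Pool.Agent.Helper83.OB

open Pool.Agent.Helper86.DML Pool.Agent.Helper61.TH Pool.Agent.Helper87.FK Pool.Agent.Helper26.OB

noncomputable section

private theorem digits83 {B : ℕ} : ∀ {r : ℕ} (f g : Fin r → ℕ), (∀ j, f j < B) → (∀ j, g j < B) →
    ∑ j, f j * B ^ (j : ℕ) = ∑ j, g j * B ^ (j : ℕ) → f = g := by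
  intro r
  induction r with
  | zero => intro f g _ _ _; exact Subsingleton.elim _ _
  | succ r ih =>
    intro f g hf hg h
    rw [Fin.sum_univ_succ, Fin.sum_univ_succ] at h
    have e : ∀ f : Fin (r + 1) → ℕ, ∑ j : Fin r, f j.succ * B ^ ((j.succ : Fin (r + 1)) : ℕ) =
        B * ∑ j : Fin r, f j.succ * B ^ (j : ℕ) := by
      intro f
      rw [Finset.mul_sum]
      refine Finset.sum_congr rfl fun j _ => ?_
      rw [Fin.val_succ, pow_succ]
      ring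
    rw [e, e, Fin.val_zero, pow_zero, mul_one, mul_one] at h
    have h0 : f 0 = g 0 := by
      have h1 := congrArg (fun z => z % B) h
      simp only [Nat.add_mul_mod_self_left, Nat.mod_eq_of_lt (hf 0), Nat.mod_eq_of_lt (hg 0)] at h1
      exact h1
    have hB : 0 < B := lt_of_le_of_lt (Nat.zero_le _) (hf 0)
    rw [h0] at h
    have h1 := Nat.eq_of_mul_eq_mul_left hB (Nat.add_left_cancel h)
    have h2 := ih (fun j => f j.succ) (fun j => g j.succ) (fun j => hf _) (fun j => hg _) h1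
    funext j
    exact Fin.cases h0 (fun j => congrFun h2 j) j

variable {p : ℕ} [hp : Fact p.Prime]

/-- the numbers with integral image -/
private def AA83 (τ : ℂ →+* PadicAlgCl p) : Subring ℂ := (Oc p).toSubring.comap τ

private theorem mem_AA83 {τ : ℂ →+* PadicAlgCl p} {z : ℂ} : z ∈ AA83 τ ↔ ‖τ z‖ ≤ 1 := mem_Oc (x := τ z)

/-- the residue map -/
private def rho83 (τ : ℂ →+* PadicAlgCl p) : AA83 τ →+* kk p :=
  (Ideal.Quotient.mk (mm p)).comp ((τ.comp (AA83 τ).subtype).codRestrict (Oc p) fun x => x.2)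

private theorem rho83_eq {τ : ℂ →+* PadicAlgCl p} (z : AA83 τ) (x : Oc p) (h : ‖τ z - x‖ < 1) :
    rho83 τ z = Ideal.Quotient.mk (mm p) x := by
  unfold rho83
  rw [RingHom.comp_apply, Ideal.Quotient.eq, mem_mm]
  exact h

private theorem rho83_pow {τ : ℂ →+* PadicAlgCl p} (z : AA83 τ) (m : ℕ) (h : ‖τ z ^ m - τ z‖ < 1) :
    rho83 τ z ^ m = rho83 τ z := by
  have h1 : rho83 τ (z ^ m) = rho83 τ z := by
    refine (rho83_eq (z ^ m) ⟨τ z, z.2⟩ ?_).trans (rho83_eq z ⟨τ z, z.2⟩ ?_).symm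
    · show ‖τ ((z ^ m : AA83 τ) : ℂ) - τ z‖ < 1
      rw [SubmonoidClass.coe_pow, map_pow]
      exact h
    · show ‖τ z - τ z‖ < 1
      rw [sub_self, norm_zero]
      exact one_pos
  exact (map_pow _ _ _).symm.trans h1

/-- the value of a polynomial with coefficients in the ring -/
private def ev83 {τ : ℂ →+* PadicAlgCl p} (q : Polynomial ℂ) (hq : ∀ i, ‖τ (q.coeff i)‖ ≤ 1) (y : AA83 τ) : AA83 τ :=
  ∑ i ∈ Finset.range (q.natDegree + 1), ⟨q.coeff i, mem_AA83.2 (hq i)⟩ * y ^ i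

private theorem coe_ev83 {τ : ℂ →+* PadicAlgCl p} (q : Polynomial ℂ) (hq : ∀ i, ‖τ (q.coeff i)‖ ≤ 1) (y : AA83 τ) :
    ((ev83 q hq y : AA83 τ) : ℂ) = q.eval (y : ℂ) := by
  unfold ev83
  rw [Polynomial.eval_eq_sum_range, AddSubmonoidClass.coe_finsetSum]
  rfl

private theorem fix_ev83 {τ : ℂ →+* PadicAlgCl p} (q : Polynomial ℂ) (hq : ∀ i, ‖τ (q.coeff i)‖ ≤ 1) (y : AA83 τ)
    (F : kk p →+* kk p) (hF : ∀ i, F (rho83 τ ⟨q.coeff i, mem_AA83.2 (hq i)⟩) = rho83 τ ⟨q.coeff i, mem_AA83.2 (hq i)⟩)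
    (hy : F (rho83 τ y) = rho83 τ y) : F (rho83 τ (ev83 q hq y)) = rho83 τ (ev83 q hq y) := by
  unfold ev83
  rw [map_sum, map_sum]
  refine Finset.sum_congr rfl fun i _ => ?_
  rw [map_mul, map_mul, map_pow, map_pow, hF, hy]

private theorem pow_pow83 {x : kk p} {a : ℕ} (h : x ^ p ^ a = x) : ∀ b : ℕ, x ^ p ^ (a * b) = x
  | 0 => by rw [mul_zero, pow_zero, pow_one]
  | b + 1 => by rw [Nat.mul_succ, pow_add, pow_mul, pow_pow83 h b, h]

/-- the polynomial argument in the residue field -/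
private theorem key83 {ι : Type} (S : Finset ι) (H U : ι → kk p) (e : ι → ℕ) (he : ∀ i ∈ S, ∀ j ∈ S, e i = e j → i = j)
    {D : ℕ} (heD : ∀ i ∈ S, e i ≤ D) (hb : ∑ i ∈ S, U i * H i = 1) (ζ : kk p) (h0 : ∑ i ∈ S, H i * ζ ^ e i = 0)
    (F : kk p →+* kk p) (hF : ∀ i ∈ S, F (H i) = H i) : ∃ j, 1 ≤ j ∧ j ≤ D ∧ F^[j] ζ = ζ := by
  classical
  by_contra hcon
  push Not at hcon
  set P : Polynomial (kk p) := ∑ i ∈ S, Polynomial.C (H i) * Polynomial.X ^ e i with hP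
  have hcoef : ∀ i ∈ S, P.coeff (e i) = H i := by
    intro i hi
    rw [hP, Polynomial.finsetSum_coeff, Finset.sum_eq_single i]
    · rw [Polynomial.coeff_C_mul_X_pow, if_pos rfl]
    · intro j hj hji
      rw [Polynomial.coeff_C_mul_X_pow, if_neg]
      intro h
      exact hji (he i hi j hj h).symm
    · intro h
      exact absurd hi h
  have hP0 : P ≠ 0 := by
    intro h
    have h1 : ∀ i ∈ S, U i * H i = 0 := by
      intro i hi
      rw [← hcoef i hi, h, Polynomial.coeff_zero, mul_zero]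
    rw [Finset.sum_eq_zero h1] at hb
    exact zero_ne_one hb
  have hev : ∀ x, P.eval x = ∑ i ∈ S, H i * x ^ e i := by
    intro x
    rw [hP, Polynomial.eval_finsetSum]
    refine Finset.sum_congr rfl fun i _ => ?_
    rw [Polynomial.eval_mul, Polynomial.eval_C, Polynomial.eval_pow, Polynomial.eval_X]
  have hroot : ∀ j, P.eval (F^[j] ζ) = 0 := by
    intro j
    induction j with
    | zero => rw [hev]; exact h0
    | succ j ih =>
      rw [hev] at ih ⊢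
      have h1 := congrArg F ih
      rw [map_zero, map_sum] at h1
      rw [← h1, Function.iterate_succ_apply']
      refine Finset.sum_congr rfl fun i hi => ?_
      rw [map_mul, map_pow, hF i hi]
  have hinj : Function.Injective F := F.injective
  have hdist : Set.InjOn (fun j => F^[j] ζ) (Finset.range (D + 1) : Finset ℕ) := by
    have h1 : ∀ i j, i < j → j < D + 1 → F^[i] ζ ≠ F^[j] ζ := by
      intro i j hij hj h
      have h2 : F^[i] (F^[j - i] ζ) = F^[i] ζ := by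
        rw [← Function.iterate_add_apply, Nat.add_sub_cancel' hij.le]
        exact h.symm
      exact hcon (j - i) (by omega) (by omega) (hinj.iterate i h2)
    intro i hi j hj h
    rw [Finset.coe_range, Set.mem_Iio] at hi hj
    rcases lt_trichotomy i j with h2 | h2 | h2
    · exact absurd h (h1 i j h2 hj)
    · exact h2
    · exact absurd h.symm (h1 j i h2 hi)
  have hdeg : P.natDegree ≤ D := by
    rw [hP]
    refine Polynomial.natDegree_sum_le_of_forall_le S _ fun i hi => ?_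
    exact (Polynomial.natDegree_C_mul_X_pow_le _ _).trans (heD i hi)
  have hsub : ((Finset.range (D + 1)).image fun j => F^[j] ζ).val ⊆ P.roots := by
    intro x hx
    have hx' : x ∈ (Finset.range (D + 1)).image fun j => F^[j] ζ := hx
    obtain ⟨j, -, rfl⟩ := Finset.mem_image.1 hx'
    rw [Polynomial.mem_roots hP0]
    exact hroot j
  have hcard := Polynomial.card_le_degree_of_subset_roots hsub
  rw [Finset.card_image_of_injOn hdist, Finset.card_range] at hcard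
  omega

/-- **T4** -/
theorem trans
    (teq_of : ∀ (Y : Finset ℂ), (∀ y ∈ Y, Transcendental ℚ y) →
      ∃ (r : ℕ) (t : Fin r → ℂ), AlgebraicIndependent (algebraicClosure ℚ ℂ).toSubfield t ∧
        ∀ y ∈ Y, ∃ (S : Finset (Fin r →₀ ℕ)) (h u : (Fin r →₀ ℕ) → Polynomial ℂ),
          (∀ μ i, IsAlgebraic ℚ ((h μ).coeff i)) ∧ (∀ μ i, IsAlgebraic ℚ ((u μ).coeff i)) ∧
          ∑ μ ∈ S, u μ * h μ = 1 ∧ ∑ μ ∈ S, (h μ).eval y * ∏ j, t j ^ μ j = 0)
    (unity_of : ∀ (p : ℕ) [Fact p.Prime] (N : ℕ), 1 ≤ N → ∃ ζ : PadicAlgCl p, ‖ζ‖ ≤ 1 ∧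
      ‖ζ ^ p ^ N - ζ‖ < 1 ∧ ∀ m : ℕ, 1 ≤ m → ‖ζ ^ p ^ m - ζ‖ < 1 → N ∣ m)
    (emb_of : ∀ (p : ℕ) [Fact p.Prime] (L₀ : Subfield ℂ), (L₀ : Set ℂ).Countable → ∀ (τ₀ : ℂ →+* PadicAlgCl p)
      {r : ℕ} (t : Fin r → ℂ), AlgebraicIndependent L₀ t → ∀ (θ : Fin r → PadicAlgCl p),
      ∃ τ : ℂ →+* PadicAlgCl p, (∀ z ∈ L₀, τ z = τ₀ z) ∧ ∀ j, ‖τ (t j) - θ j‖ < 1)
    (Y : Finset ℂ) (hY : ∀ y ∈ Y, Transcendental ℚ y) : ∃ Z : Finset ℂ, (∀ z ∈ Z, IsAlgebraic ℚ z) ∧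
    ∀ (p : ℕ) [Fact p.Prime] (τ₀ : ℂ →+* PadicAlgCl p) (n : ℕ), 1 ≤ n →
      (∀ z ∈ Z, ‖τ₀ z‖ ≤ 1 ∧ ‖(τ₀ z) ^ p ^ n - τ₀ z‖ < 1) → ∀ l : ℕ, l.Prime →
      ∃ τ : ℂ →+* PadicAlgCl p, (∀ z, IsAlgebraic ℚ z → τ z = τ₀ z) ∧
        ∀ y ∈ Y, ‖τ y‖ ≤ 1 → ∀ m : ℕ, 1 ≤ m → ‖(τ y) ^ p ^ m - τ y‖ < 1 → l ∣ m := by
  classical
  obtain ⟨r, t, ht, H⟩ := teq_of Y hY
  choose! S h u hh hu hbez heq using H
  set Z : Finset ℂ := Y.biUnion fun y => (S y).biUnion fun μ => (h y μ).coeffs ∪ (u y μ).coeffs with hZ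
  have hZh : ∀ y ∈ Y, ∀ μ ∈ S y, ∀ i, (h y μ).coeff i ≠ 0 → (h y μ).coeff i ∈ Z := by
    intro y hy μ hμ i hi
    rw [hZ, Finset.mem_biUnion]
    refine ⟨y, hy, Finset.mem_biUnion.2 ⟨μ, hμ, Finset.mem_union_left _ ?_⟩⟩
    exact Polynomial.coeff_mem_coeffs hi
  have hZu : ∀ y ∈ Y, ∀ μ ∈ S y, ∀ i, (u y μ).coeff i ≠ 0 → (u y μ).coeff i ∈ Z := by
    intro y hy μ hμ i hi
    rw [hZ, Finset.mem_biUnion]
    refine ⟨y, hy, Finset.mem_biUnion.2 ⟨μ, hμ, Finset.mem_union_right _ ?_⟩⟩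
    exact Polynomial.coeff_mem_coeffs hi
  refine ⟨Z, ?_, ?_⟩
  · intro z hz
    rw [hZ, Finset.mem_biUnion] at hz
    obtain ⟨y, hy, hz⟩ := hz
    obtain ⟨μ, hμ, hz⟩ := Finset.mem_biUnion.1 hz
    rcases Finset.mem_union.1 hz with hz | hz
    · obtain ⟨i, -, rfl⟩ := Polynomial.mem_coeffs_iff.1 hz
      exact hh y hy μ i
    · obtain ⟨i, -, rfl⟩ := Polynomial.mem_coeffs_iff.1 hz
      exact hu y hy μ i
  · intro p hp τ₀ n hn hτ₀ l hl
    -- the exponents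
    obtain ⟨B, hB⟩ : ∃ B : ℕ, ∀ y ∈ Y, ∀ μ ∈ S y, ∀ j, μ j < B := by
      refine ⟨(Y.sup fun y => (S y).sup fun μ => Finset.univ.sup fun j => μ j) + 1, ?_⟩
      intro y hy μ hμ j
      rw [Nat.lt_succ_iff]
      refine le_trans ?_ (Finset.le_sup (f := fun y => (S y).sup fun μ => Finset.univ.sup fun j => μ j) hy)
      refine le_trans ?_ (Finset.le_sup (f := fun μ : Fin r →₀ ℕ => Finset.univ.sup fun j => μ j) hμ)
      exact Finset.le_sup (f := fun j => μ j) (Finset.mem_univ j)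
    obtain ⟨D, hD⟩ : ∃ D : ℕ, ∀ y ∈ Y, ∀ μ ∈ S y, ∑ j, μ j * B ^ (j : ℕ) ≤ D := by
      refine ⟨Y.sup fun y => (S y).sup fun μ => ∑ j, μ j * B ^ (j : ℕ), ?_⟩
      intro y hy μ hμ
      refine le_trans ?_ (Finset.le_sup (f := fun y => (S y).sup fun μ => ∑ j, μ j * B ^ (j : ℕ)) hy)
      exact Finset.le_sup (f := fun μ : Fin r →₀ ℕ => ∑ j, μ j * B ^ (j : ℕ)) hμ
    have hl1 : 1 < l := hl.one_lt
    obtain ⟨ζ, hζ1, -, hζ⟩ := unity_of p (l ^ (n * D)) (Nat.one_le_pow _ _ hl.pos)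
    have hcount : (((algebraicClosure ℚ ℂ).toSubfield : Subfield ℂ) : Set ℂ).Countable := by
      refine Set.Countable.mono ?_ (Algebraic.countable ℚ ℂ)
      intro z hz
      exact mem_algebraicClosure_iff.1 hz
    obtain ⟨τ, hτ, hτt⟩ := emb_of p (algebraicClosure ℚ ℂ).toSubfield hcount τ₀ t ht fun j => ζ ^ B ^ (j : ℕ)
    have hτ' : ∀ z, IsAlgebraic ℚ z → τ z = τ₀ z := fun z hz => hτ z (mem_algebraicClosure_iff.2 hz)
    refine ⟨τ, hτ', ?_⟩
    intro y hy hy1 m hm hym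
    by_contra hlm
    have := charP_kk p
    -- coefficients
    have hch : ∀ μ ∈ S y, ∀ i, ‖τ ((h y μ).coeff i)‖ ≤ 1 := by
      intro μ hμ i
      by_cases h0 : (h y μ).coeff i = 0
      · rw [h0, map_zero, norm_zero]; exact zero_le_one
      · rw [hτ' _ (hh y hy μ i)]
        exact (hτ₀ _ (hZh y hy μ hμ i h0)).1
    have hcu : ∀ μ ∈ S y, ∀ i, ‖τ ((u y μ).coeff i)‖ ≤ 1 := by
      intro μ hμ i
      by_cases h0 : (u y μ).coeff i = 0
      · rw [h0, map_zero, norm_zero]; exact zero_le_one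
      · rw [hτ' _ (hu y hy μ i)]
        exact (hτ₀ _ (hZu y hy μ hμ i h0)).1
    have hfr : ∀ μ ∈ S y, ∀ i, ‖(τ ((h y μ).coeff i)) ^ p ^ n - τ ((h y μ).coeff i)‖ < 1 := by
      intro μ hμ i
      by_cases h0 : (h y μ).coeff i = 0
      · rw [h0, map_zero, zero_pow (pow_ne_zero _ hp.out.ne_zero), sub_zero, norm_zero]; exact one_pos
      · rw [hτ' _ (hh y hy μ i)]
        exact (hτ₀ _ (hZh y hy μ hμ i h0)).2
    -- residues
    set yA : AA83 τ := ⟨y, mem_AA83.2 hy1⟩ with hyA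
    have hζB : ∀ j : Fin r, ‖ζ ^ B ^ (j : ℕ)‖ ≤ 1 := fun j => by
      rw [norm_pow]; exact pow_le_one₀ (norm_nonneg _) hζ1
    have htA : ∀ j, ‖τ (t j)‖ ≤ 1 := by
      intro j
      have h1 : τ (t j) = (τ (t j) - ζ ^ B ^ (j : ℕ)) + ζ ^ B ^ (j : ℕ) := by ring
      rw [h1]
      exact (PadicAlgCl.isNonarchimedean p _ _).trans (max_le (hτt j).le (hζB j))
    set ζb : kk p := Ideal.Quotient.mk (mm p) ⟨ζ, mem_Oc.2 hζ1⟩ with hζb
    have hres_t : ∀ j, rho83 τ ⟨t j, mem_AA83.2 (htA j)⟩ = ζb ^ B ^ (j : ℕ) := by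
      intro j
      rw [hζb, ← map_pow]
      exact rho83_eq _ _ (hτt j)
    set HH : (Fin r →₀ ℕ) → kk p := fun μ => if hμ : μ ∈ S y then rho83 τ (ev83 (h y μ) (hch μ hμ) yA) else 0 with hHH
    set UU : (Fin r →₀ ℕ) → kk p := fun μ => if hμ : μ ∈ S y then rho83 τ (ev83 (u y μ) (hcu μ hμ) yA) else 0 with hUU
    have e1 : ∑ μ ∈ S y, UU μ * HH μ = 1 := by
      have h1 : ∑ μ ∈ (S y).attach, ev83 (u y μ.1) (hcu μ.1 μ.2) yA * ev83 (h y μ.1) (hch μ.1 μ.2) yA = (1 : AA83 τ) := by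
        apply Subtype.ext
        rw [AddSubmonoidClass.coe_finsetSum]
        have h2 : ∀ μ ∈ (S y).attach, ((ev83 (u y μ.1) (hcu μ.1 μ.2) yA * ev83 (h y μ.1) (hch μ.1 μ.2) yA : AA83 τ) : ℂ) =
            (u y μ.1 * h y μ.1).eval y := by
          intro μ _
          rw [Subring.coe_mul, coe_ev83, coe_ev83, Polynomial.eval_mul]
        rw [Finset.sum_congr rfl h2, Finset.sum_attach (S y) fun μ => (u y μ * h y μ).eval y,
          ← Polynomial.eval_finsetSum, hbez y hy, Polynomial.eval_one]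
        rfl
      have h3 := congrArg (rho83 τ) h1
      rw [map_one, map_sum] at h3
      rw [← h3, ← Finset.sum_attach]
      refine Finset.sum_congr rfl fun μ _ => ?_
      rw [hUU, hHH, map_mul]
      simp only [dif_pos μ.2]
    have e2 : ∑ μ ∈ S y, HH μ * ζb ^ (∑ j, μ j * B ^ (j : ℕ)) = 0 := by
      have h1 : ∑ μ ∈ (S y).attach, ev83 (h y μ.1) (hch μ.1 μ.2) yA *
          ∏ j, (⟨t j, mem_AA83.2 (htA j)⟩ : AA83 τ) ^ μ.1 j = (0 : AA83 τ) := by
        apply Subtype.ext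
        rw [AddSubmonoidClass.coe_finsetSum]
        have h2 : ∀ μ ∈ (S y).attach, ((ev83 (h y μ.1) (hch μ.1 μ.2) yA *
            ∏ j, (⟨t j, mem_AA83.2 (htA j)⟩ : AA83 τ) ^ μ.1 j : AA83 τ) : ℂ) =
            (h y μ.1).eval y * ∏ j, t j ^ μ.1 j := by
          intro μ _
          rw [Subring.coe_mul, coe_ev83]
          congr 1
          rw [SubmonoidClass.coe_finsetProd]
          rfl
        rw [Finset.sum_congr rfl h2, Finset.sum_attach (S y) fun μ => (h y μ).eval y * ∏ j, t j ^ μ j, heq y hy]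
        rfl
      have h3 := congrArg (rho83 τ) h1
      rw [map_zero, map_sum] at h3
      rw [← h3, ← Finset.sum_attach]
      refine Finset.sum_congr rfl fun μ _ => ?_
      rw [map_mul, map_prod, hHH]
      simp only [dif_pos μ.2, map_pow, hres_t]
      congr 1
      rw [← Finset.prod_pow_eq_pow_sum]
      refine Finset.prod_congr rfl fun j _ => ?_
      rw [← pow_mul, mul_comm]
    -- Frobenius
    obtain ⟨F, hFx⟩ : ∃ F : kk p →+* kk p, ∀ x, F x = x ^ p ^ (n * m) :=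
      ⟨iterateFrobenius (kk p) p (n * m), fun x => iterateFrobenius_def (R := kk p) p (n * m) x⟩
    have hyF : F (rho83 τ yA) = rho83 τ yA := by
      rw [hFx, mul_comm]
      exact pow_pow83 (rho83_pow yA _ hym) n
    have hFH : ∀ μ ∈ S y, F (HH μ) = HH μ := by
      intro μ hμ
      have h3 : HH μ = rho83 τ (ev83 (h y μ) (hch μ hμ) yA) := by
        rw [hHH]
        simp only [dif_pos hμ]
      rw [h3]
      refine fix_ev83 (h y μ) (hch μ hμ) yA F (fun i => ?_) hyF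
      rw [hFx]
      exact pow_pow83 (rho83_pow ⟨(h y μ).coeff i, mem_AA83.2 (hch μ hμ i)⟩ (p ^ n) (hfr μ hμ i)) m
    obtain ⟨j, hj1, hjD, hj⟩ := key83 (S y) HH UU (fun μ => ∑ j, μ j * B ^ (j : ℕ)) (by
      intro μ hμ ν hν hμν
      exact DFunLike.coe_injective (digits83 _ _ (hB y hy μ hμ) (hB y hy ν hν) hμν)) (hD y hy) e1 ζb e2 F hFH
    have hFj : ∀ j : ℕ, F^[j] ζb = ζb ^ p ^ (n * m * j) := by
      intro j
      induction j with
      | zero => rw [Function.iterate_zero, id_eq, mul_zero, pow_zero, pow_one]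
      | succ j ih => rw [Function.iterate_succ_apply', ih, hFx, ← pow_mul, ← pow_add, Nat.mul_succ]
    rw [hFj, hζb, ← map_pow, Ideal.Quotient.eq, mem_mm] at hj
    have hpos : 1 ≤ n * m * j := Nat.mul_pos (Nat.mul_pos hn hm) hj1
    have hdiv := hζ (n * m * j) hpos hj
    have hcop : Nat.Coprime (l ^ (n * D)) m := Nat.Coprime.pow_left _ ((Nat.Prime.coprime_iff_not_dvd hl).2 hlm)
    have hdiv2 : l ^ (n * D) ∣ n * j := by
      refine Nat.Coprime.dvd_of_dvd_mul_left hcop ?_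
      have e : m * (n * j) = n * m * j := by ring
      rw [e]
      exact hdiv
    have hle := Nat.le_of_dvd (Nat.mul_pos hn hj1) hdiv2
    have h1 : n * D < l ^ (n * D) := Nat.lt_pow_self hl1
    have h2 : n * j ≤ n * D := Nat.mul_le_mul_left n hjD
    omega

end

end Pool.Agent.Helper83.OB
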